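import Pool.Agent.AT3.Stmts3
import Pool.Agent.Helper24_AT2.DZA
import Pool.Agent.Helper79_AT3.FUS
import Pool.Agent.Helper62_AT3.LCJ

/-!
# Squad AT3, row FLT: from characters to block idempotents
-/

open scoped BigOperators

noncomputable section

namespace Pool.Agent.PP.T3.H69

open Pool.Agent.Helper51_AWC Pool.Agent.Helper79_WRA Pool.Agent.PP Pool.Agent.PP.KF
open Pool.Agent.PP.K9 Pool.Agent.PP.K9.H97 Pool.Agent.PP.H75

attribute [local instance] Ideal.Quotient.field

section tools

variable {H : Type} [Group H] [Finite H] {M : Ideal (integralClosure ℤ ℂ)} [hM : M.IsMaximal]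

/-- transport of the residue along an automorphism -/
theorem res_comp (α : H ≃* H) {b : H → FF M} (hb : IsCl b) {θ : H → ℂ} (hθ : θ ∈ Irr H) :
    res M (fun x => b (α x)) (fun x => θ (α x)) = res M b θ := by
  classical
  have := Fintype.ofFinite H
  obtain ⟨a, ha, ea⟩ := H50.exists_lift (M := M) hb
  have hθ' : (fun x => θ (α x)) ∈ Irr H := irr_comp_equiv α hθ
  have h1 : (fun t => Ideal.Quotient.mk M (a t)) = b := funext ea
  have h2 : (fun t => Ideal.Quotient.mk M (a (α t))) = fun x => b (α x) := by
    funext t
    exact ea (α t)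
  have ha' : H50.Cl (fun t => a (α t)) := by
    intro x y
    show a (α (y * x * y⁻¹)) = a (α x)
    rw [map_mul, map_mul, map_inv]
    exact ha _ _
  rw [← h2, ← h1]
  rw [(H50.res_irr a ha hθ).1, (H50.res_irr (fun t => a (α t)) ha' hθ').1]
  congr 1
  unfold H50.om
  congr 1
  · exact Equiv.sum_comp α.toEquiv (fun t => (a t : ℂ) * θ t)
  · show θ (α 1) = θ 1
    rw [map_one]

/-- blocks with a common character are equal -/
theorem blk_eq {b c : H → FF M} (hb : IsBlk b) (hc : IsBlk c) {θ : H → ℂ} (hθ : θ ∈ Irr H)
    (h1 : res M b θ = 1) (h2 : res M c θ = 1) : b = c := by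
  have := Fintype.ofFinite H
  have hne : mulF b c ≠ 0 := by
    intro h0
    have h3 := H50.res_mul hb.1.1 hc.1.1 hθ
    rw [h0, H50.res_zero, h1, h2, mul_one] at h3
    exact zero_ne_one h3
  have h3 : mulF b c = b := (hb.2.2 c hc.1).resolve_right hne
  have hcomm : mulF b c = mulF c b := H46.mulF_comm hb.1.1 c
  have h4 : mulF c b = c := by
    refine (hc.2.2 b hb.1).resolve_right ?_
    rw [← hcomm]
    exact hne
  rw [← h3, hcomm, h4]

end tools

/-- FLT -/
theorem flt : FltStmt := by
  intro ℓ _ M _ hM G _ _ χ hχ e he h1 D hD hab θ hθ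
  have hF : GoodF ℓ (FF M) := H50.fld ℓ Fact.out M hM
  have hTp : Tp ℓ e D := T2.H24.tp_of_isDef hM he hχ h1 hD
  have hCN : Subgroup.centralizer (D : Set G) ≤ Subgroup.normalizer (D : Set G) :=
    Subgroup.centralizer_le_normalizer _
  have := Fintype.ofFinite (Subgroup.centralizer (D : Set G))
  -- the residue of `e` on the centraliser
  have he1 : res M (fun t : Subgroup.centralizer (D : Set G) => e t) θ = 1 := by
    obtain ⟨a, ha, hax⟩ := exists_IrrS (Subgroup.centralizer (D : Set G)) hθ.1
    have hfun : (fun x : Subgroup.centralizer (D : Set G) => a x) = θ := funext hax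
    have hlab : labF M a = labF M χ := by
      rw [Helper79_WRA.H83.labF_eq_iff ha (mem_IrrS_top.2 hχ)]
      intro g
      rw [omega_IrrS ha, hfun]
      exact hθ.2 g
    rw [← hfun, ← H50.res_restr ha he.1.1, H50.res_of_lab hlab, h1]
  have hbrC : (fun t : Subgroup.centralizer (D : Set G) => br D e t) =
      fun t : Subgroup.centralizer (D : Set G) => e t := by
    funext t
    rw [H66.br_of_mem t.2]
  have hid : IsIdem (fun t : Subgroup.centralizer (D : Set G) => e t) := by
    rw [← hbrC]
    exact (H20.brm ℓ (FF M) hF G D (Subgroup.centralizer (D : Set G)) hTp.pg le_rfl hCN).2.2 e he.1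
  -- the block of `θ`
  obtain ⟨b, hb, hb1⟩ := H50.exists_block (M := M) hθ.1
  have hext : (fun t : Subgroup.centralizer (D : Set G) => H75.ext0 _ b t) = b :=
    funext (ext0_apply _ b)
  have hBx : Bx (Subgroup.centralizer (D : Set G)) (H75.ext0 _ b) := by
    refine ⟨ext0_supp _ b, ?_⟩
    rw [hext]
    exact hb
  have hund : mulF (fun t : Subgroup.centralizer (D : Set G) => e t) b = b := by
    rw [H46.mulF_comm hid.1]
    refine (hb.2.2 _ hid).resolve_right ?_
    intro h0
    have h3 := H50.res_mul hb.1.1 hid.1 hθ.1
    rw [h0, H50.res_zero, hb1, he1, mul_one] at h3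
    exact zero_ne_one h3
  refine ⟨H75.ext0 _ b, ⟨he, hTp, hab, hBx, ?_⟩, ?_⟩
  · have hs : ∀ x, x ∉ Subgroup.centralizer (D : Set G) → br D e x = 0 :=
      fun x hx => H66.br_of_not_mem hx
    apply eq_of_res (mulF_supp _ hs hBx.supp) hBx.supp
    rw [mulF_res _ _ hs, hbrC, hext, hund]
  · -- the stabiliser
    ext t
    have key : ∀ ht : t ∈ Subgroup.normalizer (D : Set G),
        (t ∈ stabF (H75.ext0 (Subgroup.centralizer (D : Set G)) b) ↔
          ∀ c c' : Subgroup.centralizer (D : Set G), (c' : G) = t * c * t⁻¹ →
            Cong M (omega (MonoidHom.id _) θ c') (omega (MonoidHom.id _) θ c)) := by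
      intro ht
      have hmem : ∀ x, x ∈ Subgroup.centralizer (D : Set G) ↔
          t * x * t⁻¹ ∈ Subgroup.centralizer (D : Set G) := fun x =>
        Subgroup.mem_normalizer_iff.1 (H79.norm_cent D ht) x
      let α : Subgroup.centralizer (D : Set G) ≃* Subgroup.centralizer (D : Set G) :=
        { toFun := fun x => ⟨t * x * t⁻¹, (hmem x).1 x.2⟩
          invFun := fun x => ⟨t⁻¹ * x * t, (hmem _).2 (by
            have h2 : t * (t⁻¹ * (x : G) * t) * t⁻¹ = x := by group
            rw [h2]
            exact x.2)⟩
          left_inv := fun x => Subtype.ext (by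
            show t⁻¹ * (t * (x : G) * t⁻¹) * t = x
            group)
          right_inv := fun x => Subtype.ext (by
            show t * (t⁻¹ * (x : G) * t) * t⁻¹ = x
            group)
          map_mul' := fun x y => Subtype.ext (by
            show t * ((x : G) * y) * t⁻¹ = t * x * t⁻¹ * (t * y * t⁻¹)
            group) }
      have hα : ∀ x, ((α x : Subgroup.centralizer (D : Set G)) : G) = t * x * t⁻¹ := fun _ => rfl
      have hθα : (fun x => θ (α x)) ∈ Irr (Subgroup.centralizer (D : Set G)) :=
        irr_comp_equiv α hθ.1
      have hbα : IsBlk (fun x => b (α x)) := H20.IsBlk_equiv α hb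
      have hstab : t ∈ stabF (H75.ext0 (Subgroup.centralizer (D : Set G)) b) ↔
          (fun x => b (α x)) = b := by
        constructor
        · intro h
          funext x
          have h2 := h (x : G)
          rw [← ext0_apply _ b (α x), hα, h2, ext0_apply]
        · intro h y
          by_cases hy : y ∈ Subgroup.centralizer (D : Set G)
          · have h2 := congrFun h ⟨y, hy⟩
            have h3 := ext0_apply _ b (α ⟨y, hy⟩)
            have h4 := ext0_apply _ b ⟨y, hy⟩
            rw [hα] at h3
            rw [h3, h4]
            exact h2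
          · rw [ext0_supp _ b y hy, ext0_supp _ b]
            exact fun h' => hy ((hmem y).2 h')
      have hlab : (∀ c c' : Subgroup.centralizer (D : Set G), (c' : G) = t * c * t⁻¹ →
            Cong M (omega (MonoidHom.id _) θ c') (omega (MonoidHom.id _) θ c)) ↔
          labF M (fun x => θ (α x)) = labF M θ := by
        have h2 : ∀ c, omega (MonoidHom.id _) (fun x => θ (α x)) c =
            omega (MonoidHom.id (Subgroup.centralizer (D : Set G))) θ (α c) := by
          intro c
          have h3 := omega_equiv (MonoidHom.id (Subgroup.centralizer (D : Set G)))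
            α.symm.toMonoidHom α (fun h => by
              have h4 : α.symm.toMonoidHom (α h) = h := α.symm_apply_apply h
              rw [h4]
              exact IsConj.refl h) θ c
          rw [h3]
          unfold omega
          congr 1
          apply finsum_congr
          intro h
          have h5 : IsConj c (α.symm.toMonoidHom h) ↔ IsConj (α c) (MonoidHom.id _ h) := by
            constructor
            · intro h6
              obtain ⟨z, hz⟩ := isConj_iff.1 h6
              refine isConj_iff.2 ⟨α z, ?_⟩
              have h7 : α (z * c * z⁻¹) = α (α.symm.toMonoidHom h) := by rw [hz]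
              rw [map_mul, map_mul, map_inv] at h7
              rw [h7]
              exact α.apply_symm_apply h
            · intro h6
              obtain ⟨z, hz⟩ := isConj_iff.1 h6
              refine isConj_iff.2 ⟨α.symm z, ?_⟩
              have h7 : α.symm (z * α c * z⁻¹) = α.symm (MonoidHom.id _ h) := by rw [hz]
              rw [map_mul, map_mul, map_inv, α.symm_apply_apply] at h7
              rw [h7]
              rfl
          rw [show (IsConj c (α.symm.toMonoidHom h)) = IsConj (α c) (MonoidHom.id _ h) from
            propext h5]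
        constructor
        · intro h
          funext c
          show red M (omega (MonoidHom.id _) (fun x => θ (α x)) c) =
            red M (omega (MonoidHom.id _) θ c)
          rw [h2, red_eq_iff (omega_integral _ hθ.1 _) (omega_integral _ hθ.1 _)]
          exact h c (α c) (hα c)
        · intro h c c' hcc
          have h5 : c' = α c := Subtype.ext (by rw [hα, hcc])
          rw [h5, ← red_eq_iff (omega_integral _ hθ.1 _) (omega_integral _ hθ.1 _), ← h2]
          exact congrFun h c
      rw [hstab, hlab]
      constructor
      · intro h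
        funext c
        rw [← H50.res_clsum]
        have h3 : res M b (fun x => θ (α x)) = 1 := by
          rw [← h, res_comp α hb.1.1 hθ.1, hb1]
        exact H50.lab_of_res hb (H50.isChar_res hθα) h3 hθ.1 hb1 c
      · intro h
        have h3 : res M b (fun x => θ (α x)) = 1 := by
          rw [H50.res_of_lab h, hb1]
        exact blk_eq hbα hb hθα (by rw [res_comp α hb.1.1 hθ.1, hb1]) h3
    constructor
    · intro ht
      exact ⟨ht.1, (key ht.1).1 ht.2⟩
    · intro ht
      exact ⟨ht.1, (key ht.1).2 ht.2⟩

end Pool.Agent.PP.T3.H69
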